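import Pool.Agent.H4PinkD

/-!
# MP_28d749_ag: curves in abelian schemes over the multiplicative group

Let `E : y² = x³ - 2` and let `P₀ = (3, 5)`, a point of infinite order. Let `n = N + 2` and let
`A → S = 𝔾_m` be the restriction of scalars, along the covering `t ↦ t ^ n` of `𝔾_m`, of the constant
curve `E`. It is an abelian scheme of relative dimension `n` over `ℚ`, and its fibre over `s` is the
product of the copies of `E` indexed by the `n`-th roots of `s`. Let `X` be the set of points with
value `P₀` at one of the roots and `0` at the others. It is an irreducible closed curve, isomorphic to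
the covering, it lies in no strict group subscheme, and all its points are in `A^{[>N]}`. For `N ≥ 1`
this is the negated form of the question, and it shows that no larger codimension would do.
-/

namespace Pool.Agent.Results.MP_28d749_ag.PowerCovers

open Pool.Agent.H4Pink Pool.Agent.H4PinkN

theorem result (N : ℕ) :
    -- each fibre is a product of `N + 2` copies of `E`
    (∀ s : Gm, Nat.card {r : Gm // r ^ (N + 2) = s} = N + 2) ∧
    -- `X` is an irreducible closed subset of dimension `1`
    IsIrreducible (X (N + 2)) ∧ IsClosed (X (N + 2)) ∧ topologicalKrullDim (X (N + 2)) = 1 ∧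
    -- a closed subset that is a subgroup in each fibre and contains `X` is everything
    (∀ G : Set (AbS (N + 2)), IsClosed G →
      (∀ s : Gm, IsSubgroup {f : Fib (N + 2) s | (⟨s, f⟩ : AbS (N + 2)) ∈ G}) →
      X (N + 2) ⊆ G → G = Set.univ) ∧
    -- `X` is contained in `A^{[>N]}`, so its intersection with it is dense in `X`
    X (N + 2) ⊆ special (N + 2) N ∧ closure (X (N + 2) ∩ special (N + 2) N) = X (N + 2) := by
  refine ⟨card_roots (N + 2), X_irreducible, X_closed, X_dim, fun G h1 h2 h3 => full h1 h2 h3,
    X_special N, ?_⟩
  rw [Set.inter_eq_left.mpr (X_special N)]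
  exact X_closed.closure_eq

end Pool.Agent.Results.MP_28d749_ag.PowerCovers
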